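import Pool.Agent.Helper76.CV.Goals

/-!
Project CV (MP_eec6f5_gt), packet GAQ
-/

set_option autoImplicit false

namespace Pool.Agent.Helper24.CV.GAQ

theorem sq_coord {n : ℕ} (x : EuclideanSpace ℝ (Fin n)) (i : Fin n) : x i ^ 2 ≤ ‖x‖ ^ 2 := by
  rw [EuclideanSpace.norm_sq_eq]
  have h := Finset.single_le_sum (f := fun j : Fin n => ‖x j‖ ^ 2) (fun j _ => sq_nonneg _) (Finset.mem_univ i)
  simpa using h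

theorem core (n0 m o e N E : ℝ) (hn : n0 ^ 2 ≤ N) (he : e ^ 2 ≤ E) :
    (-(4 / 5 * o ^ 2 * n0) + 8 / 5 * m * o * e) ^ 2 ≤ (N + m ^ 2) * (E + o ^ 2) ^ 2 := by
  have h1 : (-(4 / 5 * o ^ 2 * n0) + 8 / 5 * m * o * e) ^ 2 ≤
      (n0 ^ 2 + m ^ 2) * (16 / 25 * o ^ 4 + 64 / 25 * o ^ 2 * e ^ 2) := by
    nlinarith [sq_nonneg (n0 * (8 / 5 * o * e) + m * (4 / 5 * o ^ 2))]
  have h2 : 16 / 25 * o ^ 4 + 64 / 25 * o ^ 2 * e ^ 2 ≤ (e ^ 2 + o ^ 2) ^ 2 := by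
    nlinarith [sq_nonneg (o ^ 2 - 7 / 9 * e ^ 2), sq_nonneg (e ^ 2)]
  have h3 : (e ^ 2 + o ^ 2) ^ 2 ≤ (E + o ^ 2) ^ 2 := by
    apply pow_le_pow_left₀ (by positivity)
    linarith
  have h4 : 0 ≤ n0 ^ 2 + m ^ 2 := by positivity
  calc (-(4 / 5 * o ^ 2 * n0) + 8 / 5 * m * o * e) ^ 2
      ≤ (n0 ^ 2 + m ^ 2) * (16 / 25 * o ^ 4 + 64 / 25 * o ^ 2 * e ^ 2) := h1
    _ ≤ (n0 ^ 2 + m ^ 2) * (E + o ^ 2) ^ 2 := mul_le_mul_of_nonneg_left (h2.trans h3) h4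
    _ ≤ (N + m ^ 2) * (E + o ^ 2) ^ 2 := mul_le_mul_of_nonneg_right (by linarith) (by positivity)

theorem t : Pool.Agent.Helper76.CV.GAQ := by
  intro r n η m w τ hw
  have hi : inner ℝ n (-((4 / 5 * w * τ ^ 2) • Pool.Agent.Helper76.CV.e0 (r := r))) =
      -(4 / 5 * w * τ ^ 2 * n 0) := by
    rw [inner_neg_right, inner_smul_right]
    congr 2
    simp [Pool.Agent.Helper76.CV.e0, EuclideanSpace.inner_single_right]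
  rw [hi]
  have hc := core (n 0) m (w * τ) (η 0) (‖n‖ ^ 2) (‖η‖ ^ 2) (sq_coord n 0) (sq_coord η 0)
  have hR : 0 ≤ ‖n‖ ^ 2 + m ^ 2 := by positivity
  have hT : 0 ≤ ‖η‖ ^ 2 + (w * τ) ^ 2 := by positivity
  have hk : |-(4 / 5 * (w * τ) ^ 2 * n 0) + 8 / 5 * m * (w * τ) * η 0| ≤
      √(‖n‖ ^ 2 + m ^ 2) * (‖η‖ ^ 2 + (w * τ) ^ 2) := by
    apply abs_le_of_sq_le_sq _ (by positivity)
    have hs : (√(‖n‖ ^ 2 + m ^ 2) * (‖η‖ ^ 2 + (w * τ) ^ 2)) ^ 2 =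
        (‖n‖ ^ 2 + m ^ 2) * (‖η‖ ^ 2 + (w * τ) ^ 2) ^ 2 := by
      rw [mul_pow (√(‖n‖ ^ 2 + m ^ 2)), Real.sq_sqrt hR]
    rw [hs]
    exact hc
  have he : -(4 / 5 * w * τ ^ 2 * n 0) + m * (8 / 5 * τ * η 0) =
      1 / w * (-(4 / 5 * (w * τ) ^ 2 * n 0) + 8 / 5 * m * (w * τ) * η 0) := by
    field_simp
  have hp : (0 : ℝ) < 1 / w := by positivity
  rw [he, abs_mul, abs_of_pos hp]
  calc 1 / w * |-(4 / 5 * (w * τ) ^ 2 * n 0) + 8 / 5 * m * (w * τ) * η 0|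
      ≤ 1 / w * (√(‖n‖ ^ 2 + m ^ 2) * (‖η‖ ^ 2 + (w * τ) ^ 2)) :=
        mul_le_mul_of_nonneg_left hk hp.le
    _ = 1 / w * √(‖n‖ ^ 2 + m ^ 2) * (‖η‖ ^ 2 + (w * τ) ^ 2) := by ring

end Pool.Agent.Helper24.CV.GAQ
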